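import Pool.Agent.X83.DM.Stm

/-! Project DM, part LOW: duality, lower bound. -/

set_option autoImplicit false

namespace Pool.Agent.X214.DM

open MeasureTheory Set Filter Topology Real Pool.Agent.X83.DM

theorem Ker.contg {a c : ℝ} {y g : ℝ → ℝ} (h : Ker a c y g) : Continuous g :=
  continuous_iff_continuousAt.2 fun t => (h.dg t).continuousAt

theorem vec_cont {d : ℕ} {g : Fin d → ℝ → ℝ} (hg : ∀ i, Continuous (g i)) (v : Fin d → ℝ) :
    Continuous (vec g v) := by
  unfold vec
  refine (PiLp.continuous_toLp 2 _).comp ?_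
  exact continuous_pi fun i => (hg i).mul continuous_const

/-- integrability of the norm -/
theorem vec_int {d : ℕ} {g : Fin d → ℝ → ℝ} (hg : ∀ i, Continuous (g i)) (v : Fin d → ℝ)
    (hd : ∀ i, ∃ M η : ℝ, 0 < η ∧ ∀ t, 0 ≤ t → |g i t| ≤ M * exp (-(η * t))) :
    IntegrableOn (fun s => ‖vec g v s‖) (Ioi 0) := by
  have h1 : ∀ s, ‖vec g v s‖ ≤ ∑ i, |g i s * v i| := by
    intro s
    have h2 : vec g v s = ∑ i, (EuclideanSpace.single i (g i s * v i) : EuclideanSpace ℝ (Fin d)) := by
      ext j
      simp [vec, Finset.sum_apply, EuclideanSpace.single_apply]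
    rw [h2]
    refine (norm_sum_le _ _).trans (Finset.sum_le_sum fun i _ => ?_)
    rw [EuclideanSpace.norm_single, Real.norm_eq_abs]
  have h3 : IntegrableOn (fun s => ∑ i, |g i s * v i|) (Ioi 0) := by
    refine integrable_finset_sum _ fun i _ => ?_
    obtain ⟨M, η, hη, hM⟩ := hd i
    have h4 : IntegrableOn (fun s => M * |v i| * exp (-η * s)) (Ioi 0) :=
      (integrableOn_exp_mul_Ioi (by linarith) 0).const_mul _
    refine Integrable.mono' h4 (((hg i).mul continuous_const).abs).aestronglyMeasurable ?_
    refine (ae_restrict_iff' measurableSet_Ioi).2 (Eventually.of_forall fun s hs => ?_)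
    rw [Real.norm_eq_abs, abs_abs, abs_mul]
    have := hM s (le_of_lt hs)
    have h5 : -(η * s) = -η * s := by ring
    rw [h5] at this
    calc |g i s| * |v i| ≤ (M * exp (-η * s)) * |v i| :=
          mul_le_mul_of_nonneg_right this (abs_nonneg _)
      _ = _ := by ring
  refine Integrable.mono' h3 (vec_cont hg v).norm.aestronglyMeasurable
    (Eventually.of_forall fun s => ?_)
  rw [norm_norm]
  exact h1 s

/-- the unit field -/
noncomputable def un {d : ℕ} (g : Fin d → ℝ → ℝ) (v : Fin d → ℝ) (s : ℝ) :
    EuclideanSpace ℝ (Fin d) := ‖vec g v s‖⁻¹ • vec g v s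

theorem un_meas {d : ℕ} {g : Fin d → ℝ → ℝ} (hg : ∀ i, Continuous (g i)) (v : Fin d → ℝ) :
    Measurable (un g v) := by
  unfold un
  exact ((vec_cont hg v).norm.measurable.inv).smul (vec_cont hg v).measurable

theorem un_le {d : ℕ} (g : Fin d → ℝ → ℝ) (v : Fin d → ℝ) (s : ℝ) : ‖un g v s‖ ≤ 1 := by
  unfold un
  rw [norm_smul, norm_inv, norm_norm]
  exact inv_mul_le_one

theorem t : S_LOW := by
  intro hDEC d a y g c K hc ha hK hG v
  have hg : ∀ i, Continuous (g i) := fun i => Ker.contg (hK i)
  have hd : ∀ i, ∃ M η : ℝ, 0 < η ∧ ∀ t, 0 ≤ t → |g i t| ≤ M * exp (-(η * t)) := by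
    intro i
    obtain ⟨M, η, hη, -, h⟩ := hDEC (a i) c c (ha i) hc le_rfl
    exact ⟨M, η, hη, fun t ht => (h c ⟨le_rfl, le_rfl⟩ _ _ (hK i) t ht).2⟩
  have hint := vec_int hg v hd
  set V : EuclideanSpace ℝ (Fin d) := WithLp.toLp 2 v with hV
  have hvc := vec_cont hg v
  -- main inequality
  have key : ∀ P : ℝ, 0 < P → ∀ ε : ℝ, 0 < ε →
      2 * (∫ s in (0 : ℝ)..P, ‖vec g v s‖) - Phi g v ≤ ‖V‖ * (K + ε) := by
    intro P hP ε hε
    let f : ℝ → EuclideanSpace ℝ (Fin d) := fun t => un g v (P * ⌈t / P⌉ - t)
    have hfm : Measurable f := by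
      refine (un_meas hg v).comp ?_
      have hceil : Measurable fun t : ℝ => ((⌈t / P⌉ : ℤ) : ℝ) :=
        (measurable_from_top (f := fun z : ℤ => (z : ℝ))).comp
          (Int.measurable_ceil.comp (measurable_id.div_const P))
      exact (hceil.const_mul P).sub measurable_id
    have hfb : ∀ t, ‖f t‖ ≤ 1 := fun t => un_le g v _
    have hfl : LocallyIntegrable f := by
      intro x
      refine ⟨Icc (x - 1) (x + 1), Icc_mem_nhds (by linarith) (by linarith), ?_⟩
      exact Integrable.mono' (g := fun _ => (1 : ℝ)) (integrable_const _)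
        hfm.aestronglyMeasurable (Eventually.of_forall hfb)
    have h1 := hG 0 0 f 1 hfl (Eventually.of_forall hfb) ε hε
    have h2 : Tendsto (fun n : ℕ => (n : ℝ) * P) atTop atTop :=
      tendsto_natCast_atTop_atTop.atTop_mul_const hP
    obtain ⟨n, hn, hn1⟩ := ((h2.eventually h1).and (eventually_ge_atTop 1)).exists
    set W : EuclideanSpace ℝ (Fin d) := WithLp.toLp 2 fun i => -(a i * y i (n * P) * (0 : Fin d → ℝ) i)
      + g i (n * P) * (0 : Fin d → ℝ) i + ∫ s in (0 : ℝ)..(n * P), g i (n * P - s) * f s i with hW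
    have h3 : inner ℝ V W ≤ ‖V‖ * (K + ε) := by
      refine (real_inner_le_norm V W).trans (mul_le_mul_of_nonneg_left ?_ (norm_nonneg _))
      rw [mul_one] at hn
      exact hn
    refine le_trans ?_ h3
    have hnP : P ≤ n * P := by
      have : (1 : ℝ) ≤ n := by exact_mod_cast hn1
      nlinarith
    -- the inner product as an integral
    let F : ℝ → ℝ := fun r => inner ℝ (vec g v r) (f (n * P - r))
    have hfi : ∀ i, Measurable fun s => f s i := fun i =>
      ((EuclideanSpace.proj i : EuclideanSpace ℝ (Fin d) →L[ℝ] ℝ).continuous.measurable).comp hfm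
    have hfib : ∀ i s, |f s i| ≤ 1 := fun i s =>
      (PiLp.norm_apply_le (f s) i).trans (hfb s)
    have hii : ∀ i (A B : ℝ), IntervalIntegrable (fun s => v i * (g i (n * P - s) * f s i)) volume A B := by
      intro i A B
      have hc1 : Continuous fun s : ℝ => v i * g i (n * P - s) :=
        continuous_const.mul ((hg i).comp (continuous_const.sub continuous_id))
      have h4 : IntervalIntegrable (fun s => |v i * g i (n * P - s)|) volume A B :=
        hc1.abs.intervalIntegrable A B
      refine h4.mono_fun ((measurable_const.mul (((hg i).comp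
        (continuous_const.sub continuous_id)).measurable.mul (hfi i))).aestronglyMeasurable) ?_
      refine Eventually.of_forall fun s => ?_
      simp only [Real.norm_eq_abs, abs_abs]
      rw [← mul_assoc, abs_mul]
      exact mul_le_of_le_one_right (abs_nonneg _) (hfib i s)
    have h5 : inner ℝ V W = ∫ s in (0 : ℝ)..(n * P), F (n * P - s) := by
      have h6 : inner ℝ V W = ∑ i, ∫ s in (0 : ℝ)..(n * P), v i * (g i (n * P - s) * f s i) := by
        rw [PiLp.inner_apply]
        refine Finset.sum_congr rfl fun i _ => ?_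
        rw [intervalIntegral.integral_const_mul]
        simp [hV, hW, mul_comm]
      rw [h6, ← intervalIntegral.integral_finset_sum fun i _ => hii i _ _]
      refine intervalIntegral.integral_congr fun s _ => ?_
      simp only [F, sub_sub_cancel]
      rw [PiLp.inner_apply]
      refine Finset.sum_congr rfl fun i _ => ?_
      simp [vec]
      ring
    have h7 : ∫ s in (0 : ℝ)..(n * P), F (n * P - s) = ∫ r in (0 : ℝ)..(n * P), F r := by
      rw [intervalIntegral.integral_comp_sub_left F (n * P)]
      simp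
    have hFm : Measurable F := hvc.measurable.inner (hfm.comp (measurable_const.sub measurable_id))
    have hFb : ∀ r, |F r| ≤ ‖vec g v r‖ := fun r =>
      (abs_real_inner_le_norm _ _).trans (mul_le_of_le_one_right (norm_nonneg _) (hfb _))
    have hFi : ∀ A B : ℝ, IntervalIntegrable F volume A B := by
      intro A B
      refine (hvc.norm.intervalIntegrable A B).mono_fun hFm.aestronglyMeasurable ?_
      exact Eventually.of_forall fun r => by
        change ‖F r‖ ≤ ‖‖vec g v r‖‖
        rw [Real.norm_eq_abs, norm_norm]; exact hFb r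
    have hF1 : ∀ r ∈ Ico (0 : ℝ) P, F r = ‖vec g v r‖ := by
      intro r hr
      have h8 : f (n * P - r) = un g v r := by
        simp only [f]
        congr 1
        have h9 : ((n : ℝ) * P - r) / P = (n : ℤ) - r / P := by
          push_cast; field_simp
        have h10 : ⌈((n : ℝ) * P - r) / P⌉ = n := by
          rw [Int.ceil_eq_iff]
          push_cast
          constructor
          · rw [lt_div_iff₀ hP]; nlinarith [hr.2]
          · rw [div_le_iff₀ hP]; nlinarith [hr.1]
        rw [h10]
        push_cast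
        ring
      simp only [F]
      rw [h8]
      unfold un
      rw [inner_smul_right, real_inner_self_eq_norm_sq]
      by_cases h0 : ‖vec g v r‖ = 0
      · rw [h0]; simp
      · field_simp
    have h11 : ∫ r in (0 : ℝ)..(n * P), F r
        = (∫ r in (0 : ℝ)..P, F r) + ∫ r in P..(n * P), F r :=
      (intervalIntegral.integral_add_adjacent_intervals (hFi _ _) (hFi _ _)).symm
    have h12 : ∫ r in (0 : ℝ)..P, F r = ∫ r in (0 : ℝ)..P, ‖vec g v r‖ := by
      rw [intervalIntegral.integral_of_le hP.le, intervalIntegral.integral_of_le hP.le,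
        ← integral_Ico_eq_integral_Ioc, ← integral_Ico_eq_integral_Ioc]
      exact setIntegral_congr_fun measurableSet_Ico hF1
    have h13 : -(∫ r in P..(n * P), ‖vec g v r‖) ≤ ∫ r in P..(n * P), F r := by
      rw [← intervalIntegral.integral_neg]
      refine intervalIntegral.integral_mono_on hnP (hvc.norm.neg.intervalIntegrable _ _) (hFi _ _) ?_
      intro r _
      exact (abs_le.1 (hFb r)).1
    have h14 : (∫ r in (0 : ℝ)..P, ‖vec g v r‖) + ∫ r in P..(n * P), ‖vec g v r‖ ≤ Phi g v := by
      rw [intervalIntegral.integral_add_adjacent_intervals (hvc.norm.intervalIntegrable _ _)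
        (hvc.norm.intervalIntegrable _ _), intervalIntegral.integral_of_le (by linarith)]
      unfold Phi
      exact setIntegral_mono_set hint (Eventually.of_forall fun s => norm_nonneg _)
        Ioc_subset_Ioi_self.eventuallyLE
    rw [h5, h7, h11, h12]
    linarith
  -- limits
  have hlim : Tendsto (fun P : ℝ => ∫ s in (0 : ℝ)..P, ‖vec g v s‖) atTop (𝓝 (Phi g v)) :=
    intervalIntegral_tendsto_integral_Ioi 0 hint tendsto_id
  have h1 : ∀ ε : ℝ, 0 < ε → Phi g v ≤ ‖V‖ * (K + ε) := by
    intro ε hε
    have h2 : Tendsto (fun P : ℝ => 2 * (∫ s in (0 : ℝ)..P, ‖vec g v s‖) - Phi g v) atTop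
        (𝓝 (2 * Phi g v - Phi g v)) := (hlim.const_mul 2).sub_const _
    have h3 := le_of_tendsto h2 ((eventually_gt_atTop 0).mono fun P hP => key P hP ε hε)
    linarith
  have h2 : Tendsto (fun ε : ℝ => ‖V‖ * (K + ε)) (𝓝[>] 0) (𝓝 (‖V‖ * (K + 0))) := by
    have : Continuous fun ε : ℝ => ‖V‖ * (K + ε) := by fun_prop
    exact (this.tendsto 0).mono_left nhdsWithin_le_nhds
  have h3 := ge_of_tendsto h2 (eventually_mem_nhdsWithin.mono fun ε hε => h1 ε hε)
  rw [add_zero, mul_comm] at h3
  exact h3

end Pool.Agent.X214.DM
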